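import Pool.Agent.Lib_helper40.SteinerFam

/-!
# MP_ad59b4_gt: two proportional intrinsic volumes of projections do not imply homothety, for every
odd dimension `k ≥ 3` of the projections and every dimension `n > k` of the space
-/

open MeasureTheory
open scoped Pointwise

namespace Pool.Agent.Results.MP_ad59b4_gt.NotHomotheticOddK

noncomputable section

/-- Euclidean space of dimension `n`. -/
abbrev E (n : ℕ) : Type := EuclideanSpace ℝ (Fin n)

/-- The volume of the unit ball of dimension `m`. -/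
def kappa (m : ℕ) : ℝ := (volume (Metric.closedBall (0 : E m) 1)).toReal

/-- Steiner's formula: for all `t ≥ 0` the volume of `K + t B` is `∑_i κ_{n-i} V_i t^{n-i}`. -/
def Steiner {n : ℕ} (K : Set (E n)) (V : ℕ → ℝ) : Prop :=
  ∀ t : ℝ, 0 ≤ t → volume (K + t • Metric.closedBall (0 : E n) 1) =
    ENNReal.ofReal (∑ i ∈ Finset.range (n + 1), kappa (n - i) * V i * t ^ (n - i))

open Classical in
/-- The intrinsic volume `V_i(K)`, given by Steiner's formula. -/
def intrinsicVolume {n : ℕ} (i : ℕ) (K : Set (E n)) : ℝ :=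
  if h : ∃ V : ℕ → ℝ, Steiner K V then h.choose i else 0

/-- The orthogonal projection of `K` onto the subspace `S`. -/
def projection {n : ℕ} (K : Set (E n)) (S : Submodule ℝ (E n)) : Set (E n) :=
  S.starProjection '' K

/-- The dimension of a convex set. -/
def dimension {n : ℕ} (K : Set (E n)) : ℕ := Module.finrank ℝ (vectorSpan ℝ K)

/-- `K - c = -(K - c)` for some point `c`. -/
def CentrallySymmetric {n : ℕ} (K : Set (E n)) : Prop := ∃ c : E n, K - {c} = -(K - {c})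

/-- `K = x + r L` for a point `x` and a number `r > 0`. -/
def Homothetic {n : ℕ} (K L : Set (E n)) : Prop :=
  ∃ (x : E n) (r : ℝ), 0 < r ∧ K = {x} + r • L

theorem kappa_pos (m : ℕ) : 0 < kappa m :=
  ENNReal.toReal_pos (Metric.measure_closedBall_pos volume 0 zero_lt_one).ne'
    (isCompact_closedBall (0 : E m) 1).measure_lt_top.ne

/-- The coefficients are unique. -/
theorem steiner_unique {n : ℕ} {K : Set (E n)} (hK : K.Nonempty) {V W : ℕ → ℝ} (hV : Steiner K V)
    (hW : Steiner K W) {i : ℕ} (hi : i ≤ n) : V i = W i := by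
  have hpos : ∀ t : ℝ, 0 < t → 0 < volume (K + t • Metric.closedBall (0 : E n) 1) := by
    intro t ht
    obtain ⟨x, hx⟩ := hK
    rw [smul_unitClosedBall, Real.norm_of_nonneg ht.le]
    refine lt_of_lt_of_le (Metric.measure_closedBall_pos volume x ht) (measure_mono ?_)
    intro y hy
    refine ⟨x, hx, y - x, ?_, by simp⟩
    rw [mem_closedBall_zero_iff, ← dist_eq_norm]
    exact hy
  have key : ∀ t : ℝ, 0 < t →
      ∑ i ∈ Finset.range (n + 1), kappa (n - i) * V i * t ^ (n - i) =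
      ∑ i ∈ Finset.range (n + 1), kappa (n - i) * W i * t ^ (n - i) := by
    intro t ht
    have h1 := hV t ht.le
    have h2 := hW t ht.le
    have h3 := hpos t ht
    have h4 : 0 < ∑ i ∈ Finset.range (n + 1), kappa (n - i) * V i * t ^ (n - i) := by
      rw [h1, ENNReal.ofReal_pos] at h3
      exact h3
    have h5 : 0 < ∑ i ∈ Finset.range (n + 1), kappa (n - i) * W i * t ^ (n - i) := by
      have h3 := hpos t ht
      rw [h2, ENNReal.ofReal_pos] at h3
      exact h3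
    rw [h1] at h2
    exact (ENNReal.ofReal_eq_ofReal_iff h4.le h5.le).1 h2
  let P : (ℕ → ℝ) → Polynomial ℝ := fun U =>
    ∑ i ∈ Finset.range (n + 1), Polynomial.C (kappa (n - i) * U i) * Polynomial.X ^ (n - i)
  have hP : ∀ (U : ℕ → ℝ) (t : ℝ), (P U).eval t =
      ∑ i ∈ Finset.range (n + 1), kappa (n - i) * U i * t ^ (n - i) := by
    intro U t
    simp [P, Polynomial.eval_finsetSum]
  have h1 : P V = P W := by
    refine Polynomial.eq_of_infinite_eval_eq _ _ ((Set.Ioi_infinite (0 : ℝ)).mono ?_)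
    intro t ht
    show (P V).eval t = (P W).eval t
    rw [hP, hP]
    exact key t ht
  have hc : ∀ U : ℕ → ℝ, (P U).coeff (n - i) = kappa (n - i) * U i := by
    intro U
    simp only [P, Polynomial.finsetSum_coeff, Polynomial.coeff_C_mul, Polynomial.coeff_X_pow]
    rw [Finset.sum_eq_single i]
    · simp
    · intro j hj hji
      rw [Finset.mem_range] at hj
      rw [if_neg, mul_zero]
      omega
    · intro h
      exact absurd (Finset.mem_range.2 (by omega)) h
  have h2 := congrArg (fun Q => Q.coeff (n - i)) h1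
  simp only [hc] at h2
  exact mul_left_cancel₀ (kappa_pos _).ne' h2

theorem intrinsicVolume_eq {n : ℕ} {K : Set (E n)} (hK : K.Nonempty) {V : ℕ → ℝ}
    (hV : Steiner K V) {i : ℕ} (hi : i ≤ n) : intrinsicVolume i K = V i := by
  unfold intrinsicVolume
  rw [dif_pos ⟨V, hV⟩]
  exact steiner_unique hK (Exists.choose_spec ⟨V, hV⟩) hV hi


section construction

open Pool.Agent.Lib_helper76.Steiner Pool.Agent.Lib_helper40.SteinerFam

variable {n : ℕ}

/-- the `i`-th standard basis vector (zero if `i ≥ n`) -/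
def bv (n i : ℕ) : E n := if h : i < n then EuclideanSpace.single ⟨i, h⟩ 1 else 0

/-- the pairs of basis vectors with the indices `2 j`, `2 j + 1`, for `s ≤ j < s + m` -/
def prs (n : ℕ) : ℕ → ℕ → List (E n × E n)
  | _, 0 => []
  | s, m + 1 => (bv n (2 * s), bv n (2 * s + 1)) :: prs n (s + 1) m

lemma length_prs (s m : ℕ) : (prs n s m).length = m := by
  induction m generalizing s with
  | zero => rfl
  | succ m ih => simp [prs, ih]

lemma mem_prs {s m : ℕ} {p : E n × E n} :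
    p ∈ prs n s m ↔ ∃ j, s ≤ j ∧ j < s + m ∧ p = (bv n (2 * j), bv n (2 * j + 1)) := by
  induction m generalizing s with
  | zero =>
    simp only [prs, List.not_mem_nil, false_iff]
    rintro ⟨j, h1, h2, -⟩
    omega
  | succ m ih =>
    rw [prs, List.mem_cons, ih]
    constructor
    · rintro (h | ⟨j, h1, h2, h3⟩)
      · exact ⟨s, le_rfl, by omega, h⟩
      · exact ⟨j, by omega, by omega, h3⟩
    · rintro ⟨j, h1, h2, h3⟩
      rcases eq_or_lt_of_le h1 with h | h
      · subst h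
        exact Or.inl h3
      · exact Or.inr ⟨j, h, by omega, h3⟩

lemma zero_TT (l : List (E n × E n)) : (0 : E n) ∈ TT l 1 := by
  induction l with
  | nil => exact rfl
  | cons p l ih => exact ⟨0, zero_mem_tri _ _, 0, ih, by simp⟩

lemma zero_HH (l : List (E n × E n)) : (0 : E n) ∈ HH l 1 := by
  induction l with
  | nil => exact rfl
  | cons p l ih => exact ⟨0, zero_mem_hex _ _, 0, ih, by simp⟩

lemma mem_TT (l : List (E n × E n)) {p : E n × E n} (hp : p ∈ l) :
    p.1 ∈ TT l 1 ∧ p.2 ∈ TT l 1 := by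
  induction l with
  | nil => simp at hp
  | cons q l ih =>
    rcases List.mem_cons.1 hp with rfl | h
    · exact ⟨⟨_, left_mem_tri _ _, 0, zero_TT l, by simp⟩, ⟨_, right_mem_tri _ _, 0, zero_TT l, by simp⟩⟩
    · exact ⟨⟨0, zero_mem_tri _ _, _, (ih h).1, by simp⟩, ⟨0, zero_mem_tri _ _, _, (ih h).2, by simp⟩⟩

lemma mem_HH (l : List (E n × E n)) {p : E n × E n} (hp : p ∈ l) :
    p.1 ∈ HH l 1 ∧ p.2 ∈ HH l 1 := by
  induction l with
  | nil => simp at hp
  | cons q l ih =>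
    rcases List.mem_cons.1 hp with rfl | h
    · exact ⟨⟨_, left_mem_hex _ _, 0, zero_HH l, by simp⟩, ⟨_, right_mem_hex _ _, 0, zero_HH l, by simp⟩⟩
    · exact ⟨⟨0, zero_mem_hex _ _, _, (ih h).1, by simp⟩, ⟨0, zero_mem_hex _ _, _, (ih h).2, by simp⟩⟩

lemma sub_TT (W : Submodule ℝ (E n)) (l : List (E n × E n)) (hl : ∀ p ∈ l, p.1 ∈ W ∧ p.2 ∈ W)
    (s : ℝ) : TT l s ⊆ W := by
  induction l with
  | nil =>
    rintro _ rfl
    exact W.zero_mem
  | cons p l ih =>
    rintro _ ⟨_, ⟨z, -, rfl⟩, y, hy, rfl⟩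
    have h1 := hl p (by simp)
    exact W.add_mem (W.add_mem (W.smul_mem _ h1.1) (W.smul_mem _ h1.2))
      (ih (fun q hq => hl q (by simp [hq])) hy)

lemma sub_HH (W : Submodule ℝ (E n)) (l : List (E n × E n)) (hl : ∀ p ∈ l, p.1 ∈ W ∧ p.2 ∈ W)
    (s : ℝ) : HH l s ⊆ W := by
  induction l with
  | nil =>
    rintro _ rfl
    exact W.zero_mem
  | cons p l ih =>
    rintro _ ⟨_, ⟨_, ⟨x, -, rfl⟩, _, ⟨_, ⟨y, -, rfl⟩, _, ⟨z, -, rfl⟩, rfl⟩, rfl⟩, y, hy, rfl⟩
    have h1 := hl p (by simp)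
    exact W.add_mem (W.add_mem (W.smul_mem _ h1.1) (W.add_mem (W.smul_mem _ h1.2)
      (W.smul_mem _ (W.sub_mem h1.2 h1.1)))) (ih (fun q hq => hl q (by simp [hq])) hy)

/-- the space of the first `d` coordinates -/
def fs (n d : ℕ) : Submodule ℝ (E n) := Submodule.span ℝ (Set.range fun i : Fin d => bv n i)

lemma finrank_fs {d : ℕ} (hd : d ≤ n) : Module.finrank ℝ (fs n d) = d := by
  have hli : LinearIndependent ℝ (fun i : Fin d => bv n i) := by
    have h := ((EuclideanSpace.basisFun (Fin n) ℝ).toBasis.linearIndependent).comp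
      (Fin.castLE hd) (Fin.castLE_injective hd)
    have e : (fun i : Fin d => bv n i) =
        (⇑(EuclideanSpace.basisFun (Fin n) ℝ).toBasis ∘ Fin.castLE hd) := by
      funext i
      have hi : (i : ℕ) < n := i.2.trans_le hd
      simp [bv, hi, Fin.castLE]
    rw [e]
    exact h
  unfold fs
  rw [finrank_span_eq_card hli, Fintype.card_fin]

lemma dim_eq {d : ℕ} (hd : d ≤ n) {K : Set (E n)} (hK : K ⊆ fs n d) (h0 : (0 : E n) ∈ K)
    (h : ∀ i < d, bv n i ∈ K) : dimension K = d := by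
  have : vectorSpan ℝ K = fs n d := by
    apply le_antisymm
    · rw [vectorSpan_def, Submodule.span_le]
      rintro _ ⟨x, hx, y, hy, rfl⟩
      exact (fs n d).sub_mem (hK hx) (hK hy)
    · unfold fs
      rw [Submodule.span_le]
      rintro _ ⟨i, rfl⟩
      have := vsub_mem_vectorSpan ℝ (h i i.2) h0
      simpa using this
  unfold dimension
  rw [this, finrank_fs hd]

lemma bv_prs {m i : ℕ} (hi : i < 2 * m) : ∃ p ∈ prs n 0 m, bv n i = p.1 ∨ bv n i = p.2 := by
  refine ⟨(bv n (2 * (i / 2)), bv n (2 * (i / 2) + 1)),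
    mem_prs.2 ⟨i / 2, by omega, by omega, rfl⟩, ?_⟩
  rcases Nat.even_or_odd' i with ⟨c, hc | hc⟩
  · left
    have : 2 * (i / 2) = i := by omega
    simp only [this]
  · right
    have : 2 * (i / 2) + 1 = i := by omega
    simp only [this]

lemma prs_fs {m : ℕ} : ∀ p ∈ prs n 0 m, p.1 ∈ fs n (2 * m) ∧ p.2 ∈ fs n (2 * m) := by
  intro p hp
  obtain ⟨j, h1, h2, rfl⟩ := mem_prs.1 hp
  exact ⟨Submodule.subset_span ⟨⟨2 * j, by omega⟩, rfl⟩,
    Submodule.subset_span ⟨⟨2 * j + 1, by omega⟩, rfl⟩⟩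

lemma dim_TT {m : ℕ} (hm : 2 * m ≤ n) : dimension (TT (prs n 0 m) 1) = 2 * m := by
  refine dim_eq hm (sub_TT _ _ prs_fs 1) (zero_TT _) fun i hi => ?_
  obtain ⟨p, hp, h | h⟩ := bv_prs (n := n) hi
  · rw [h]
    exact (mem_TT _ hp).1
  · rw [h]
    exact (mem_TT _ hp).2

lemma dim_HH {m : ℕ} (hm : 2 * m ≤ n) : dimension (HH (prs n 0 m) 1) = 2 * m := by
  refine dim_eq hm (sub_HH _ _ prs_fs 1) (zero_HH _) fun i hi => ?_
  obtain ⟨p, hp, h | h⟩ := bv_prs (n := n) hi
  · rw [h]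
    exact (mem_HH _ hp).1
  · rw [h]
    exact (mem_HH _ hp).2

/-- the centre of a sum of hexagons -/
def cen : List (E n × E n) → E n
  | [] => 0
  | p :: l => p.2 + cen l

lemma HH_sym (l : List (E n × E n)) {x : E n} (hx : x ∈ HH l 1) :
    (2 : ℝ) • cen l - x ∈ HH l 1 := by
  induction l generalizing x with
  | nil =>
    have : x = 0 := hx
    subst this
    simp [cen, HH]
  | cons p l ih =>
    obtain ⟨u, hu, y, hy, rfl⟩ := hx
    refine ⟨_, hex_sym _ _ hu, _, ih hy, ?_⟩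
    show (2 : ℝ) • p.2 - u + ((2 : ℝ) • cen l - y) = (2 : ℝ) • (p.2 + cen l) - (u + y)
    module

lemma bv_apply {i j : ℕ} (hj : j < n) : bv n i ⟨j, hj⟩ = if i = j then 1 else 0 := by
  unfold bv
  by_cases hi : i < n
  · rw [dif_pos hi, PiLp.single_apply]
    by_cases h : i = j
    · subst h
      simp
    · rw [if_neg h, if_neg]
      intro h'
      exact h (Fin.mk.inj_iff.1 h').symm
  · rw [dif_neg hi, if_neg]
    · rfl
    · omega

lemma rest_coord (hn : 2 ≤ n) {m : ℕ} {y : E n} (hy : y ∈ TT (prs n 1 m) 1) :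
    y ⟨0, by omega⟩ = 0 ∧ y ⟨1, by omega⟩ = 0 := by
  let W : Submodule ℝ (E n) :=
    { carrier := {x | x ⟨0, by omega⟩ = 0 ∧ x ⟨1, by omega⟩ = 0}
      add_mem' := fun {a b} ha hb => ⟨by rw [PiLp.add_apply, ha.1, hb.1, add_zero],
        by rw [PiLp.add_apply, ha.2, hb.2, add_zero]⟩
      zero_mem' := ⟨rfl, rfl⟩
      smul_mem' := fun c a ha => ⟨by rw [PiLp.smul_apply, ha.1, smul_zero],
        by rw [PiLp.smul_apply, ha.2, smul_zero]⟩ }
  have hW : ∀ x : E n, x ∈ W ↔ x ⟨0, by omega⟩ = 0 ∧ x ⟨1, by omega⟩ = 0 := fun x => Iff.rfl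
  have h := sub_TT W (prs n 1 m) (fun p hp => by
    obtain ⟨j, h1, h2, rfl⟩ := mem_prs.1 hp
    simp only [hW, bv_apply]
    refine ⟨⟨?_, ?_⟩, ⟨?_, ?_⟩⟩ <;> rw [if_neg] <;> omega) 1 hy
  exact (hW y).1 h

lemma K1_coord (hn : 2 ≤ n) {m : ℕ} {y : E n} (hy : y ∈ TT (prs n 0 (m + 1)) 1) :
    0 ≤ y ⟨0, by omega⟩ ∧ 0 ≤ y ⟨1, by omega⟩ ∧ y ⟨0, by omega⟩ + y ⟨1, by omega⟩ ≤ 1 := by
  obtain ⟨_, ⟨⟨p, q⟩, ⟨h1, h2, h3⟩, rfl⟩, y, hy, rfl⟩ := hy
  obtain ⟨e1, e2⟩ := rest_coord hn hy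
  simp only at h1 h2 h3
  simp only [PiLp.add_apply, PiLp.smul_apply, bv_apply, e1, e2, smul_eq_mul]
  norm_num
  exact ⟨h1, h2, h3⟩

theorem not_homothetic (hn : 2 ≤ n) (m : ℕ) :
    ¬ Homothetic (TT (prs n 0 (m + 1)) 1) (HH (prs n 0 (m + 1)) 1) := by
  rintro ⟨x, r, -, hK⟩
  set c := cen (prs n 0 (m + 1)) with hc
  set w := (2 : ℝ) • x + (2 * r) • c with hw
  have hsym : ∀ z ∈ TT (prs n 0 (m + 1)) 1, w - z ∈ TT (prs n 0 (m + 1)) 1 := by
    intro z hz
    rw [hK] at hz ⊢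
    obtain ⟨x', hx', _, ⟨k, hk, rfl⟩, rfl⟩ := hz
    have hxx : x' = x := hx'
    rw [hxx]
    refine ⟨_, rfl, _, ⟨_, HH_sym _ hk, rfl⟩, ?_⟩
    show x + r • ((2 : ℝ) • c - k) = w - (x + r • k)
    rw [hw]
    module
  have hp : (bv n 0, bv n 1) ∈ prs n 0 (m + 1) := mem_prs.2 ⟨0, by omega, by omega, rfl⟩
  have g0 := K1_coord hn (hsym _ (zero_TT _))
  have g1 := K1_coord hn (hsym _ (mem_TT _ hp).1)
  have g2 := K1_coord hn (hsym _ (mem_TT _ hp).2)
  simp only [PiLp.sub_apply, PiLp.zero_apply, bv_apply] at g0 g1 g2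
  norm_num at g0 g1 g2
  linarith [g0.2.2, g1.1, g2.2.1]

end construction

open Pool.Agent.Lib_helper76.Steiner Pool.Agent.Lib_helper40.SteinerFam in
/-- For every odd `k ≥ 3` and every `n > k` there are compact convex sets `K₁`, `K₂` of dimension
`k + 1` in Euclidean space of dimension `n`, `K₂` centrally symmetric, such that
`V₁(K₁|S) = V₁(K₂|S) / 2` and `V_k(K₁|S) = V_k(K₂|S) / (2 · 6^((k-1)/2))` for all subspaces `S` of
dimension `k`, and `K₁` is not homothetic to `K₂`. -/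
theorem result : ∀ k n : ℕ, Odd k → 3 ≤ k → k + 1 ≤ n →
    ∃ K₁ K₂ : Set (E n), IsCompact K₁ ∧ Convex ℝ K₁ ∧ dimension K₁ = k + 1 ∧
    IsCompact K₂ ∧ Convex ℝ K₂ ∧ dimension K₂ = k + 1 ∧ CentrallySymmetric K₂ ∧
    (∀ S : Submodule ℝ (E n), Module.finrank ℝ S = k →
      (∃ V, Steiner (projection K₁ S) V) ∧ (∃ V, Steiner (projection K₂ S) V) ∧
      intrinsicVolume 1 (projection K₁ S) = 1 / 2 * intrinsicVolume 1 (projection K₂ S) ∧
      intrinsicVolume k (projection K₁ S) =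
        1 / (2 * 6 ^ ((k - 1) / 2)) * intrinsicVolume k (projection K₂ S)) ∧
    ¬ Homothetic K₁ K₂ := by
  rintro k n ⟨m, rfl⟩ hk hn
  have hm : 2 * (m + 1) ≤ n := by omega
  have hk1 : 2 * m + 1 + 1 = 2 * (m + 1) := by ring
  have hn2 : 2 ≤ n := by omega
  refine ⟨TT (prs n 0 (m + 1)) 1, HH (prs n 0 (m + 1)) 1, (cc_TT _ 1).comp, (cc_TT _ 1).conv,
    (dim_TT hm).trans hk1.symm, (cc_HH _ 1).comp, (cc_HH _ 1).conv, (dim_HH hm).trans hk1.symm,
    ?_, ?_, not_homothetic hn2 m⟩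
  · refine ⟨cen (prs n 0 (m + 1)), ?_⟩
    have key : ∀ x ∈ HH (prs n 0 (m + 1)) 1 - {cen (prs n 0 (m + 1))},
        -x ∈ HH (prs n 0 (m + 1)) 1 - {cen (prs n 0 (m + 1))} := by
      rintro _ ⟨x, hx, c, rfl, rfl⟩
      refine ⟨_, HH_sym _ hx, _, rfl, ?_⟩
      show (2 : ℝ) • cen (prs n 0 (m + 1)) - x - cen (prs n 0 (m + 1)) =
        -(x - cen (prs n 0 (m + 1)))
      module
    ext x
    rw [Set.mem_neg]
    exact ⟨key x, fun h => by simpa using key _ h⟩
  · intro S _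
    have hlen : ((prs n 0 (m + 1)).map fun p =>
        (S.starProjection p.1, S.starProjection p.2)).length = m + 1 := by
      rw [List.length_map, length_prs]
    obtain ⟨c₁, c₂, h1, h2, h3, h4⟩ := steiner_fam (E := E n) volume (n := n) (by simp)
      ((prs n 0 (m + 1)).map fun p => (S.starProjection p.1, S.starProjection p.2))
      (by rw [hlen]; omega) (by rw [hlen]; exact hm)
    rw [hlen] at h4
    have e4 : 2 * (m + 1) - 1 = 2 * m + 1 := by omega
    rw [e4, Nat.add_sub_cancel] at h4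
    rw [← image_TT] at h1
    rw [← image_HH] at h2
    have hst : ∀ (K : Set (E n)) (c : ℕ → ℝ), (∀ t : ℝ, 0 ≤ t →
        volume (S.starProjection '' K + Metric.closedBall (0 : E n) t) =
        ENNReal.ofReal (∑ i ∈ Finset.range (n + 1), c i * t ^ (n - i))) →
        Steiner (projection K S) fun i => c i / kappa (n - i) := by
      intro K c hc t ht
      unfold projection
      rw [smul_unitClosedBall, Real.norm_of_nonneg ht, hc t ht]
      congr 1
      refine Finset.sum_congr rfl fun i _ => ?_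
      rw [mul_div_cancel₀ _ (kappa_pos _).ne']
    have s1 := hst _ _ h1
    have s2 := hst _ _ h2
    have n1 : (projection (TT (prs n 0 (m + 1)) 1) S).Nonempty := ⟨_, 0, zero_TT _, rfl⟩
    have n2 : (projection (HH (prs n 0 (m + 1)) 1) S).Nonempty := ⟨_, 0, zero_HH _, rfl⟩
    refine ⟨⟨_, s1⟩, ⟨_, s2⟩, ?_, ?_⟩
    · rw [intrinsicVolume_eq n1 s1 (by omega), intrinsicVolume_eq n2 s2 (by omega), h3]
      ring
    · have e5 : (2 * m + 1 - 1) / 2 = m := by omega
      rw [intrinsicVolume_eq n1 s1 (by omega), intrinsicVolume_eq n2 s2 (by omega), h4, e5]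
      ring

end

end Pool.Agent.Results.MP_ad59b4_gt.NotHomotheticOddK
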